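import Mathlib
import Pool.Agent.Helper10.HodgeTypes

/-!
# Places of Hodge type: definition
-/

universe u v w u' w'

namespace Pool.Agent.Helper11.BD

open Pool.Agent.Helper10

/-- The variety `Y` over `k` with the divisor `e` has a place of Hodge type: for some field `k'` and
some Weil cohomology theory for varieties over `k'`, with the same field of coefficients, `(Y, e)`
has a semistable degeneration such that the standard conjecture D and the standard conjecture of
Hodge type hold for all its strata. -/
def HasHodgePlace {k : Type u} [Field k] {K : Type v} [Field K] [CharZero K]
    (W : CohomologyData.{u, v, w} k K) (Y : SmProjVar k) (e : Y.Z 1) : Prop :=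
  ∃ (k' : Type u') (_ : Field k') (W' : WeilCohomology.{u', v, w'} k' K),
    DegeneratesToHodgeType W W'.toCohomologyData Y e

end Pool.Agent.Helper11.BD
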