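import Mathlib
import Pool.Agent.Helper11.BP.Types
import Pool.Agent.Helper11.BD.Final
import Pool.Agent.Helper10.HD.Final

/-!
# Positivity at the boundary
-/

universe u v w u' w'

open CategoryTheory Finset

namespace Pool.Agent.Helper11.BD

open Pool.Agent.Helper10 hiding IsAlgAut parityPart
open SmProjVar
open Pool.Agent.Helper11.Obs (IsNumTrivial prodVar)

variable {k : Type u} [Field k] {K : Type v} [Field K] [CharZero K]
  (W : WeilCohomology.{u, v, w} k K) {F : Subfield K}

/-- the standard conjecture of Hodge type, and conjectures A and D -/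
theorem hodgeType_of_place {Y : SmProjVar k} {e : Y.Z 1}
    (h : HasHodgePlace.{u, v, w, u', w'} W.toCohomologyData Y e) :
    W.HodgeType Y e ∧ (W.StandardD Y ↔ W.LefschetzType Y e) := by
  obtain ⟨k', _, W', h⟩ := h
  have hH := HD.hodgeType_of_degeneration W W' Y e h
  have hH' := (HD.hodgeType_iff W Y e).mp hH
  exact ⟨hH, fun hD => HD.lefschetz_of_standardD hH' hD,
    fun hA => HD.standardD_of_lefschetz hH' hA⟩

/-- the star operators of products -/
theorem exists_star_prodVar : ∀ {r : ℕ} (V : Fin r → SmProjVar k),
    (∀ i, ∃ π l, Star W F (V i) π l) → ∃ π' l', Star W F (prodVar (pt k) V) π' l'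
  | 0, _, _ => star_pt W
  | _ + 1, V, h => by
    obtain ⟨π', l', h'⟩ := exists_star_prodVar (fun i => V i.castSucc) fun i => h _
    obtain ⟨π, l, hl⟩ := h (Fin.last _)
    exact h'.prod W hl

/-- the standard conjecture D for products of varieties with `B` -/
theorem standardD_of_place {r : ℕ} {V : Fin r → SmProjVar k} {d : ∀ i, (V i).Z 1}
    (hd : ∀ i, HardLefschetz W.toCohomologyData (V i) (d i))
    (hB : ∀ i, LefschetzStandard W.toCohomologyData F (V i) (d i))
    {e : (prodVar (pt k) V).Z 1} (he : HardLefschetz W.toCohomologyData (prodVar (pt k) V) e)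
    (h : HasHodgePlace.{u, v, w, u', w'} W.toCohomologyData (prodVar (pt k) V) e) :
    W.StandardD (prodVar (pt k) V) := by
  refine (hodgeType_of_place W h).2.mpr ?_
  obtain ⟨π, l, hl⟩ := exists_star_prodVar W (F := ratField K) V fun i =>
    exists_star W (hd i) ((lefschetzStandard_iff W (hd i) (ratField_le F)).mpr (hB i))
  exact lefschetzType_of_standard W he (hl.lefschetzStandard W he)

/-- D passes to dominated varieties -/
theorem standardD_of_dominatedBy {C : SmProjVar k → Prop} (hC : ∀ V, C V → W.StandardD V)
    {T : SmProjVar k} (hT : W.DominatedBy C T) : W.StandardD T :=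
  W.standardD_of_D K T (W.d_of_dominatedBy K hT fun V hV => W.d_of_standardD K (hC V hV))

/-- varieties are dominated by themselves -/
theorem dominatedBy_self {C : SmProjVar k → Prop} {V : SmProjVar k} (hV : C V) :
    W.DominatedBy C V :=
  ⟨1, fun _ => V, fun _ x => x, fun _ => hV, fun _ =>
    Ro.IsMapOver.isAlgebraicMap (F := ⊤) W (Ro.isMapOver_id W V), fun y => ⟨fun _ => y, by simp⟩⟩

/-- the standard conjecture D for all powers and the Lefschetz standard conjecture -/
theorem standardD_iff_of_places {X : SmProjVar k} {d : X.Z 1}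
    (hd : HardLefschetz W.toCohomologyData X d)
    (h : ∀ b, ∃ e : (cart X b).Z 1, HardLefschetz W.toCohomologyData (cart X b) e ∧
      HasHodgePlace.{u, v, w, u', w'} W.toCohomologyData (cart X b) e) :
    (∀ T, W.DominatedBy (fun Z => ∃ b, Z = cart X b) T → W.StandardD T) ↔
      LefschetzStandard W.toCohomologyData F X d := by
  rw [← standardD_iff_lefschetz W hd fun b => by
    obtain ⟨e, he, h⟩ := h b
    exact ⟨e, he, (hodgeType_of_place W h).1⟩]
  constructor
  · intro h b
    exact h _ (dominatedBy_self W ⟨b, rfl⟩)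
  · intro h T hT
    refine standardD_of_dominatedBy W (fun V hV => ?_) hT
    obtain ⟨b, rfl⟩ := hV
    exact h b

end Pool.Agent.Helper11.BD
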